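import Mathlib
import Pool.Agent.Lib.helper15.Cut

set_option autoImplicit false

open MeasureTheory Filter Topology

namespace Pool.Agent.Results.MP_17ecd9_gt.Counter

/-- The similarity matrix of a finite subset of a metric space. -/
noncomputable def Z {M : Type} [MetricSpace M] (A : Finset M) : Matrix A A ℝ :=
  fun a b => Real.exp (-dist (a : M) (b : M))

open Classical in
/-- Magnitude of a finite set: the sum of the entries of the inverse similarity matrix. -/
noncomputable def magFin {M : Type} [MetricSpace M] (A : Finset M) : ℝ :=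
  ∑ a, ∑ b, (Z A)⁻¹ a b

/-- Magnitude of a (compact) set: supremum over its nonempty finite subsets. -/
noncomputable def magCmp {M : Type} [MetricSpace M] (K : Set M) : ENNReal :=
  ⨆ (A : Finset M) (_ : A.Nonempty ∧ (A : Set M) ⊆ K), ENNReal.ofReal (magFin A)

/-- Tractable: positive definite, Heine-Borel, and closed balls have finite magnitude. -/
def Tractable (M : Type) [MetricSpace M] : Prop :=
  (∀ A : Finset M, A.Nonempty → (Z A).PosDef) ∧
  (∀ s : Set M, IsClosed s → Bornology.IsBounded s → IsCompact s) ∧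
  ∀ (x : M) (r : ℝ), magCmp (Metric.closedBall x r) < ⊤

/-- Continuity of magnitude on nonempty finite subsets for the Hausdorff metric. -/
def ContFin (M : Type) [MetricSpace M] : Prop :=
  ∀ A : Finset M, A.Nonempty → ∀ ε > 0, ∃ δ > 0, ∀ B : Finset M, B.Nonempty →
    Metric.hausdorffDist (A : Set M) (B : Set M) < δ → |magFin B - magFin A| < ε

/-- Continuity of magnitude on nonempty compact subsets for the Hausdorff metric. -/
def ContCmp (M : Type) [MetricSpace M] : Prop :=
  Continuous fun K : TopologicalSpace.NonemptyCompacts M => (magCmp (K : Set M)).toReal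

open Pool.Agent.Lib.helper15.Cut

noncomputable abbrev μ : Measure ℝ := volume.restrict (Set.Icc (0 : ℝ) 1)

instance : IsProbabilityMeasure μ := ⟨by simp [μ]⟩

abbrev Ix := Σ n : ℕ, Fin (n + 1)

def S : Option Ix → Set ℝ
  | none => ∅
  | some ⟨n, j⟩ => Set.Ico ((j : ℝ) / (n + 1)) (((j : ℝ) + 1) / (n + 1))

lemma S_meas (o : Option Ix) : MeasurableSet (S o) := by
  rcases o with _ | ⟨n, j⟩
  · exact MeasurableSet.empty
  · exact measurableSet_Ico

noncomputable def P (o : Option Ix) : Lp ℝ 1 μ :=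
  indicatorConstLp 1 (S_meas o) (measure_ne_top _ _) (1 : ℝ)

lemma dist_P (o o' : Option Ix) : dist (P o) (P o') = μ.real (symmDiff (S o) (S o')) := by
  rw [P, P, dist_indicatorConstLp_eq_norm, norm_indicatorConstLp (by simp) (by simp)]
  simp

lemma μ_S (n : ℕ) (j : Fin (n + 1)) : μ.real (S (some ⟨n, j⟩)) = 1 / (n + 1) := by
  have h0 : (0 : ℝ) < n + 1 := by positivity
  have hj : (j : ℝ) + 1 ≤ n + 1 := by exact_mod_cast j.2
  have hs : S (some ⟨n, j⟩) ⊆ Set.Icc 0 1 := fun t ht =>
    ⟨le_trans (by positivity) ht.1, ht.2.le.trans ((div_le_one h0).2 hj)⟩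
  rw [measureReal_def, Measure.restrict_apply (S_meas _), Set.inter_eq_left.2 hs]
  simp only [S, Real.volume_Ico]
  rw [ENNReal.toReal_ofReal] <;> field_simp <;> simp

lemma disj (n : ℕ) (j k : Fin (n + 1)) (h : j ≠ k) :
    Disjoint (S (some ⟨n, j⟩)) (S (some ⟨n, k⟩)) := by
  have h0 : (0 : ℝ) < n + 1 := by positivity
  have key : ∀ j k : Fin (n + 1), j < k → Disjoint (S (some ⟨n, j⟩)) (S (some ⟨n, k⟩)) := by
    intro j k h
    have : (j : ℝ) + 1 ≤ k := by exact_mod_cast h
    rw [Set.disjoint_left]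
    intro t h1 h2
    have := h2.1.trans_lt h1.2
    rw [div_lt_div_iff_of_pos_right h0] at this
    linarith
  rcases lt_or_gt_of_ne h with h | h
  exacts [key j k h, (key k j h).symm]

lemma m0 (n : ℕ) (j : Fin (n + 1)) :
    μ.real (symmDiff (S none) (S (some ⟨n, j⟩))) = 1 / (n + 1) := by
  rw [← μ_S n j]
  show μ.real (symmDiff ∅ _) = _
  rw [← Set.bot_eq_empty, bot_symmDiff]

lemma m1 (n : ℕ) (j k : Fin (n + 1)) (h : j ≠ k) :
    μ.real (symmDiff (S (some ⟨n, j⟩)) (S (some ⟨n, k⟩))) = 2 * (1 / (n + 1)) := by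
  rw [(disj n j k h).symmDiff_eq_sup]
  show μ.real (S _ ∪ S _) = _
  rw [measureReal_union (disj n j k h) (S_meas _), μ_S, μ_S]
  ring

def T : Set (Lp ℝ 1 μ) := Set.range P

lemma T_compact : IsCompact T := by
  have h : Tendsto (fun i : Ix => P (some i)) cofinite (𝓝 (P none)) := by
    rw [Metric.tendsto_nhds]
    intro ε hε
    obtain ⟨N, hN⟩ := exists_nat_one_div_lt hε
    rw [eventually_cofinite]
    refine ((Finset.range N).sigma fun n => (Finset.univ : Finset (Fin (n + 1)))).finite_toSet.subset ?_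
    rintro ⟨n, j⟩ hn
    have e : dist (P (some ⟨n, j⟩)) (P none) = 1 / (n + 1) := by rw [dist_comm, dist_P, m0]
    simp only [Set.mem_ofPred_eq, e, not_lt] at hn
    have := lt_of_one_div_lt_one_div (by positivity) (hN.trans_le hn)
    have : n < N := by exact_mod_cast (by linarith : (n : ℝ) < N)
    simpa using this
  have e : T = insert (P none) (Set.range fun i : Ix => P (some i)) := by
    ext x
    simp only [T, Set.mem_range, Set.mem_insert_iff, Option.exists, eq_comm]
  rw [e]; exact h.isCompact_insert_range_of_cofinite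

structure Model (M : Type) [MetricSpace M] where
  pt : Option Ix → M
  surj : Function.Surjective pt
  hd : ∀ o o', dist (pt o) (pt o') = μ.real (symmDiff (S o) (S o'))

section
variable {M : Type} [MetricSpace M] (m : Model M)

lemma d0 (n : ℕ) (j : Fin (n + 1)) : dist (m.pt none) (m.pt (some ⟨n, j⟩)) = 1 / (n + 1) := by
  rw [m.hd, m0]

lemma d1 (n : ℕ) (j k : Fin (n + 1)) (h : j ≠ k) :
    dist (m.pt (some ⟨n, j⟩)) (m.pt (some ⟨n, k⟩)) = 2 * (1 / (n + 1)) := by
  rw [m.hd, m1 n j k h]

lemma quad0 {B : Type} [Fintype B] [DecidableEq B] (U : B → Set ℝ) (hU : ∀ y, MeasurableSet (U y))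
    (d : B → B → ℝ) (hd : ∀ y y', d y y' = μ.real (symmDiff (U y) (U y')))
    (hs : ∀ y y', d y y' = 0 → y = y') :
    (∀ w : B → ℝ, w ≠ 0 → 0 < ∑ y, ∑ y', w y * w y' * Real.exp (-d y y')) ∧
    ∀ w : B → ℝ, (∑ a, w a) ^ 2 ≤ Real.exp 1 * ∑ y, ∑ y', w y * w y' * Real.exp (-d y y') := by
  obtain ⟨s, δ, h1, h2, h3⟩ := atoms μ U hU
  have hd' : ∀ y y', d y y' = ∑ σ ∈ s, if σ y = σ y' then 0 else δ σ := fun y y' =>
    (hd y y').trans (h3 y y')
  have e : ∀ w : B → ℝ, ∑ y, ∑ y', w y * w y' * Real.exp (-d y y') = ∑ y, ∑ y', w y * w y' *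
      Real.exp (-(∑ σ ∈ s, if σ y = σ y' then 0 else δ σ)) := fun w =>
    Finset.sum_congr rfl fun y _ => Finset.sum_congr rfl fun y' _ => by rw [hd']
  refine ⟨fun w hw => ?_, fun w => ?_⟩
  · rw [e]
    refine strict (ι := B → Bool) (fun σ y => σ y) δ s h1 (fun y y' hne => ?_) w hw
    by_contra hn
    push Not at hn
    have := hd' y y'
    rw [Finset.sum_eq_zero fun σ hσ => if_pos (hn σ hσ)] at this
    exact hne (hs _ _ this)
  · have := lower_one (ι := B → Bool) (fun σ y => σ y) δ s (fun σ h => (h1 σ h).le) w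
    rw [h2, Real.exp_neg, inv_mul_le_iff₀ (Real.exp_pos 1)] at this
    rw [e]; exact this

include m in
lemma quad (A : Finset M) : (∀ w : A → ℝ, w ≠ 0 → 0 < ∑ y, ∑ y', w y * w y' * Z A y y') ∧
    ∀ w : A → ℝ, (∑ a, w a) ^ 2 ≤ Real.exp 1 * ∑ y, ∑ y', w y * w y' * Z A y y' := by
  classical
  choose o ho using fun y : A => m.surj y
  exact quad0 (fun y : A => S (o y)) (fun y => S_meas _) (fun y y' => dist (y : M) (y' : M))
    (fun y y' => by rw [← m.hd, ho, ho]) fun y y' h => Subtype.ext (dist_eq_zero.1 h)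

include m in
lemma posDef (A : Finset M) : (Z A).PosDef := by
  classical
  refine Matrix.PosDef.of_dotProduct_mulVec_pos ?_ fun w hw => ?_
  · ext a b; simp [Z, dist_comm]
  · have := (quad m A).1 w hw
    rw [← quad_eq] at this
    simpa using this

include m in
lemma det_unit (A : Finset M) [DecidableEq A] : IsUnit (Z A).det :=
  (Matrix.isUnit_iff_isUnit_det _).1 (posDef m A).isUnit

include m in
lemma magFin_le (A : Finset M) : magFin A ≤ Real.exp 1 := by
  classical
  unfold magFin
  convert mag_le (Z A) (det_unit m A) _ (Real.exp_pos 1).le (quad m A).2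

include m in
lemma magCmp_le (K : Set M) : magCmp K ≤ ENNReal.ofReal (Real.exp 1) :=
  iSup₂_le fun A _ => ENNReal.ofReal_le_ofReal (magFin_le m A)

include m in
lemma mag_single (x : M) : magFin {x} = 1 := by
  classical
  unfold magFin
  have := mag_weight (Z {x}) (det_unit m _) (fun _ => 1) (by
    funext a
    simp only [Matrix.mulVec, dotProduct, mul_one, Finset.univ_unique, Finset.sum_singleton, Z]
    rw [Subsingleton.elim a default]; simp)
  simp only [Finset.univ_unique, Finset.sum_singleton] at this ⊢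
  convert this

def q (n : ℕ) : Option (Fin (n + 1)) → M
  | none => m.pt none
  | some j => m.pt (some ⟨n, j⟩)

lemma q_inj (n : ℕ) : Function.Injective (q m n) := by
  have h0 : (0 : ℝ) < 1 / (n + 1) := by positivity
  rintro (_ | j) (_ | k) h
  · rfl
  · have := d0 m n k; rw [show m.pt none = m.pt (some ⟨n, k⟩) from h, dist_self] at this; linarith
  · have := d0 m n j
    rw [show m.pt none = m.pt (some ⟨n, j⟩) from h.symm, dist_self] at this; linarith
  · by_contra hn
    have := d1 m n j k fun h => hn (congrArg some h)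
    rw [show m.pt (some ⟨n, j⟩) = m.pt (some ⟨n, k⟩) from h, dist_self] at this; linarith

def A (n : ℕ) : Finset M := Finset.univ.map ⟨q m n, q_inj m n⟩

lemma sumA (n : ℕ) (F : M → ℝ) :
    ∑ a : A m n, F a = F (m.pt none) + ∑ j, F (m.pt (some ⟨n, j⟩)) := by
  rw [Finset.sum_coe_sort (A m n) F, A, Finset.sum_map, Fintype.sum_option]; rfl

lemma magA (n : ℕ) : 5 / 4 ≤ magFin (A m n) := by
  classical
  set a : ℝ := 1 / (n + 1) with ha
  set r := Real.exp (-a) with hr
  have r0 : 0 < r := Real.exp_pos _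
  let g : M → ℝ := fun x => if x = m.pt none then 1 - (n + 1) * r / (1 + r) else 1 / (1 + r)
  have g0 : g (m.pt none) = 1 - (n + 1) * r / (1 + r) := if_pos rfl
  have g1 : ∀ j, g (m.pt (some ⟨n, j⟩)) = 1 / (1 + r) := fun j =>
    if_neg fun h => absurd (q_inj m n (a₁ := some j) (a₂ := none) h) (by simp)
  have := mag_weight (Z (A m n)) (det_unit m _) (fun x => g x) (by
    funext ⟨x, hx⟩
    obtain ⟨o, -, rfl⟩ := Finset.mem_map.1 hx
    show ∑ x : A m n, Real.exp (-dist (q m n o) (x : M)) * g x = 1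
    rw [sumA m n fun b => Real.exp (-dist (q m n o) b) * g b]
    rcases o with _ | k
    · simp only [q, g0, g1, d0, dist_self, ← ha, ← hr]
      simp; field_simp; ring
    · simp only [q, g0, g1]
      rw [dist_comm, d0, ← ha, ← hr, ← Finset.add_sum_erase _ _ (Finset.mem_univ k), dist_self,
        Finset.sum_congr rfl fun j hj => by rw [d1 m n k j (Finset.ne_of_mem_erase hj).symm, ← ha]]
      have : Real.exp (-(2 * a)) = r ^ 2 := by rw [hr, ← Real.exp_nat_mul]; congr 1; push_cast; ring
      rw [this]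
      simp; field_simp; ring)
  have e : magFin (A m n) = ∑ x : A m n, g x := by unfold magFin; convert this
  rw [e, sumA m n g]
  simp only [g0, g1]
  have a0 : 0 < a := by positivity
  have a1 : a ≤ 1 := by rw [ha, div_le_one (by positivity)]; simp
  have an : (n + 1) * a = 1 := by rw [ha]; field_simp
  have r1 : r * (1 + a) ≤ 1 := by
    have := Real.add_one_le_exp a
    rw [hr, Real.exp_neg, inv_mul_le_iff₀ (Real.exp_pos a)]; linarith
  have r2 : r ≤ 1 := by nlinarith
  have r3 : a / 2 ≤ 1 - r := by nlinarith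
  have n0 : (0 : ℝ) < n + 1 := by positivity
  have e2 : 1 - (n + 1) * r / (1 + r) + ∑ _j : Fin (n + 1), 1 / (1 + r) =
      1 + (n + 1) * (1 - r) / (1 + r) := by simp; field_simp; ring
  rw [e2]
  have : 1 / 4 ≤ (n + 1) * (1 - r) / (1 + r) := by
    rw [le_div_iff₀ (by linarith)]; nlinarith
  linarith

lemma hdA (n : ℕ) : Metric.hausdorffDist (({m.pt none} : Finset M) : Set M) (A m n : Set M) ≤
    1 / (n + 1) := by
  refine Metric.hausdorffDist_le_of_mem_dist (by positivity) (fun x hx => ?_) fun x hx => ?_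
  · obtain rfl : x = m.pt none := by simpa using hx
    exact ⟨m.pt none, Finset.mem_map.2 ⟨none, Finset.mem_univ _, rfl⟩,
      by rw [dist_self]; positivity⟩
  · obtain ⟨o, -, rfl⟩ := Finset.mem_map.1 hx
    refine ⟨m.pt none, by simp, ?_⟩
    rcases o with _ | k
    · exact le_of_eq_of_le (dist_self _) (by positivity)
    · exact ((dist_comm _ _).trans (d0 m n k)).le

lemma A_ne (n : ℕ) : (A m n).Nonempty :=
  ⟨m.pt none, Finset.mem_map.2 ⟨none, Finset.mem_univ _, rfl⟩⟩

include m in
theorem main [CompactSpace M] : Tractable M ∧ ¬ ContFin M ∧ ¬ ContCmp M := by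
  refine ⟨⟨fun A _ => posDef m A, fun s hs _ => hs.isCompact,
    fun x r => (magCmp_le m _).trans_lt ENNReal.ofReal_lt_top⟩, fun h => ?_, fun h => ?_⟩
  · obtain ⟨δ, hδ, h⟩ := h {m.pt none} (by simp) (1 / 4) (by norm_num)
    obtain ⟨n, hn⟩ := exists_nat_one_div_lt hδ
    have h1 := h (A m n) (A_ne m n) ((hdA m n).trans_lt hn)
    rw [mag_single m] at h1
    linarith [magA m n, (abs_lt.1 h1).2]
  · let K0 : TopologicalSpace.NonemptyCompacts M :=
      ⟨⟨(({m.pt none} : Finset M) : Set M), (Finset.finite_toSet _).isCompact⟩, by simp⟩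
    let K : ℕ → TopologicalSpace.NonemptyCompacts M := fun n =>
      ⟨⟨(A m n : Set M), (Finset.finite_toSet _).isCompact⟩, A_ne m n⟩
    obtain ⟨δ, hδ, h⟩ := Metric.continuous_iff.1 h K0 (1 / 4) (by norm_num)
    obtain ⟨n, hn⟩ := exists_nat_one_div_lt hδ
    have h1 := h (K n) (by
      rw [dist_comm, Metric.NonemptyCompacts.dist_eq]
      exact (hdA m n).trans_lt hn)
    have e0 : magCmp (K0 : Set M) ≤ 1 := by
      refine iSup₂_le fun B hB => ?_
      have : B = {m.pt none} := by
        refine (Finset.subset_singleton_iff.1 (Finset.coe_subset.1 hB.2)).resolve_left hB.1.ne_empty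
      rw [this, mag_single m]; simp
    have e1 : ENNReal.ofReal (magFin (A m n)) ≤ magCmp (K n : Set M) :=
      le_iSup₂_of_le (f := fun (B : Finset M) (_ : B.Nonempty ∧ (B : Set M) ⊆ (K n : Set M)) =>
        ENNReal.ofReal (magFin B)) (A m n) ⟨A_ne m n, subset_rfl⟩ le_rfl
    have e2 := ENNReal.toReal_mono (by simp) e0
    have e3 := ENNReal.toReal_mono ((magCmp_le m _).trans_lt ENNReal.ofReal_lt_top).ne e1
    rw [ENNReal.toReal_ofReal (by linarith [magA m n])] at e3
    rw [Real.dist_eq] at h1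
    simp only [ENNReal.toReal_one] at e2
    linarith [magA m n, (abs_lt.1 h1).2]

end

noncomputable def model : Model T where
  pt o := ⟨P o, o, rfl⟩
  surj := fun ⟨_, o, h⟩ => ⟨o, Subtype.ext h⟩
  hd o o' := dist_P o o'

/-- There is a tractable subspace of `L₁[0,1]` on which magnitude is discontinuous, both on
finite and on compact subsets. -/
theorem result : ∃ T : Set (Lp ℝ 1 (volume.restrict (Set.Icc (0 : ℝ) 1))),
    Tractable T ∧ ¬ ContFin T ∧ ¬ ContCmp T :=
  haveI : CompactSpace T := isCompact_iff_compactSpace.1 T_compact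
  ⟨T, main model⟩

end Pool.Agent.Results.MP_17ecd9_gt.Counter
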